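import Pool.Agent.Q248.TI.Z73

/-!
# The maximum size of a `4`-independent set is not monotone along odd `n`

`τ_±(ℤ_1,[1,4]) = 0`, `τ_±(ℤ_71,[1,4]) ≥ 5` (the set `{1, 4, 11, 17, 31}`) and
`τ_±(ℤ_73,[1,4]) ≤ 4` (a certified search).
-/

namespace Pool.Agent.Results.MP_3bc6ef_co.NotMonotone

open Finset Pool.Agent.Q248.TI

/-- **Theorem.** The sequence `τ_±(ℤ_n,[1,4])`, `n = 1, 3, 5, …`, is neither nondecreasing nor
nonincreasing. -/
theorem result :
    ¬ (Monotone (fun k : ℕ => tau (2 * k + 1) 4) ∨ Antitone (fun k : ℕ => tau (2 * k + 1) 4)) := by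
  have h71 := five_le_tau71
  have h73 := tau73_le
  have h1 : tau 1 4 = 0 := tau_zero (by norm_num) (by norm_num)
  rintro (hm | hm)
  · have : tau (2 * 35 + 1) 4 ≤ tau (2 * 36 + 1) 4 := hm (by norm_num)
    norm_num at this
    omega
  · have : tau (2 * 35 + 1) 4 ≤ tau (2 * 0 + 1) 4 := hm (by norm_num)
    norm_num at this
    omega

end Pool.Agent.Results.MP_3bc6ef_co.NotMonotone
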